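import Pool.Agent.Run7.h678.Sat.Core

set_option autoImplicit false

/-!
The local lemma for two blocks and several vertices: a vertex with exactly four members of `T`
between the two blocks has a colour in `Fin 3`, and two such vertices of the same colour cannot be
joined by exactly one member of `T` to each of the blocks.
-/

namespace Run7.h678.CU

open Run7.h678.Sat

/-- the code of a table -/
def cd9 (b0 b1 b2 b3 b4 b5 b6 b7 b8 : Bool) : ℕ :=
  b0.toNat + 2 * b1.toNat + 4 * b2.toNat + 8 * b3.toNat + 16 * b4.toNat + 32 * b5.toNat +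
    64 * b6.toNat + 128 * b7.toNat + 256 * b8.toNat

/-- the table with the code `m` -/
def TabN (m : ℕ) (i x : Fin 3) : Bool := (m / 2 ^ (3 * i.val + x.val)) % 2 == 1

theorem tabN_cd9 : ∀ b0 b1 b2 b3 b4 b5 b6 b7 b8 : Bool, ∀ i x : Fin 3,
    TabN (cd9 b0 b1 b2 b3 b4 b5 b6 b7 b8) i x = Tab b0 b1 b2 b3 b4 b5 b6 b7 b8 i x := by
  decide +kernel

/-- the list of the states of a vertex (apex in the first block, apex in the second block, table)
with exactly four members between the blocks -/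
def Lst (k : ℕ) : List (Fin 3 × Fin 3 × ℕ) :=
  if k = 66 then
    [(2, 2, 228), (2, 2, 116), (1, 2, 284), (0, 2, 92), (2, 1, 338), (1, 0, 394),
     (0, 0, 330), (1, 1, 170), (1, 2, 282), (0, 0, 78), (2, 0, 417), (1, 0, 113),
     (2, 0, 393), (2, 1, 165), (0, 1, 149), (0, 1, 85), (0, 2, 291), (1, 1, 163)]
  else if k = 21 then
    [(2, 2, 228), (2, 1, 340), (2, 0, 116), (1, 2, 284), (0, 0, 92), (2, 1, 338),
     (1, 1, 394), (0, 1, 330), (1, 1, 170), (0, 0, 78), (1, 0, 177), (1, 0, 113),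
     (2, 0, 393), (2, 2, 165), (0, 1, 149), (0, 2, 291), (1, 2, 163), (0, 2, 267)]
  else if k = 15 then
    [(2, 2, 228), (1, 2, 396), (0, 2, 204), (1, 2, 284), (2, 2, 226), (2, 1, 338),
     (2, 0, 114), (1, 1, 170), (0, 0, 106), (0, 0, 78), (1, 0, 305), (1, 0, 113),
     (2, 0, 393), (1, 1, 277), (0, 1, 149), (0, 1, 141), (0, 2, 291), (2, 1, 275)]
  else if k = 51 then
    [(2, 2, 228), (1, 0, 396), (0, 0, 204), (1, 1, 172), (1, 2, 284), (2, 1, 338),
     (2, 1, 114), (1, 1, 170), (0, 1, 106), (0, 0, 78), (2, 0, 401), (1, 0, 113),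
     (2, 0, 393), (1, 2, 277), (0, 1, 149), (0, 2, 291), (0, 2, 99), (2, 2, 275)]
  else if k = 55 then
    [(2, 2, 228), (2, 2, 172), (1, 2, 284), (0, 2, 156), (2, 1, 354), (2, 1, 338),
     (1, 1, 170), (2, 0, 102), (0, 0, 142), (0, 0, 78), (0, 1, 401), (1, 1, 337),
     (1, 0, 113), (2, 0, 393), (1, 2, 281), (0, 1, 149), (0, 2, 291), (1, 0, 99)]
  else if k = 46 then
    [(2, 2, 228), (2, 0, 396), (2, 1, 172), (1, 2, 284), (0, 1, 156), (2, 1, 338),
     (1, 1, 170), (1, 1, 106), (2, 2, 102), (0, 0, 78), (0, 0, 401), (1, 0, 337),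
     (1, 0, 113), (2, 0, 393), (0, 1, 149), (0, 2, 291), (1, 2, 99), (0, 2, 275)]
  else if k = 34 then
    [(2, 2, 228), (2, 2, 212), (1, 2, 284), (2, 1, 338), (0, 1, 298), (1, 1, 170),
     (2, 1, 282), (2, 0, 86), (0, 0, 270), (0, 0, 78), (0, 2, 417), (1, 2, 225),
     (1, 0, 113), (2, 0, 393), (1, 1, 169), (0, 1, 149), (1, 0, 85), (0, 2, 291)]
  else if k = 70 then
    [(2, 2, 228), (1, 2, 284), (1, 2, 92), (2, 1, 338), (2, 0, 394), (0, 2, 298),
     (1, 1, 170), (2, 2, 282), (2, 1, 86), (0, 0, 78), (0, 0, 417), (1, 0, 225),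
     (1, 0, 113), (2, 0, 393), (0, 1, 165), (0, 1, 149), (1, 1, 85), (0, 2, 291)]
  else if k = 29 then
    [(2, 2, 228), (1, 2, 340), (0, 2, 212), (1, 2, 284), (2, 1, 338), (1, 1, 298),
     (1, 1, 170), (0, 0, 86), (1, 0, 270), (0, 0, 78), (2, 2, 225), (0, 1, 177),
     (1, 0, 113), (2, 0, 393), (2, 1, 169), (0, 1, 149), (0, 2, 291), (2, 0, 267)]
  else if k = 20 then
    [(2, 2, 228), (1, 1, 340), (0, 1, 212), (1, 0, 116), (1, 2, 284), (2, 1, 338),
     (2, 1, 330), (1, 1, 170), (1, 2, 270), (0, 0, 78), (0, 0, 177), (1, 0, 113),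
     (2, 0, 393), (2, 0, 169), (0, 1, 149), (0, 2, 291), (0, 2, 163), (2, 2, 267)]
  else if k = 59 then
    [(2, 2, 228), (1, 2, 284), (1, 2, 156), (0, 1, 354), (1, 1, 226), (2, 1, 338),
     (1, 1, 170), (0, 0, 102), (1, 0, 142), (0, 0, 78), (2, 1, 337), (0, 2, 305),
     (1, 0, 113), (2, 0, 393), (2, 2, 281), (0, 1, 149), (2, 0, 141), (0, 2, 291)]
  else if k = 14 then
    [(2, 2, 228), (2, 2, 204), (1, 2, 284), (0, 2, 354), (1, 2, 226), (2, 1, 338),
     (1, 0, 114), (1, 1, 170), (1, 1, 142), (0, 0, 78), (0, 0, 305), (1, 0, 113),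
     (2, 0, 393), (2, 0, 281), (0, 1, 277), (0, 1, 149), (2, 1, 141), (0, 2, 291)]
  else []

/-- the key of the pair of blocks -/
def key (c d : Fin 3 → Fin 3) : ℕ := (c 0).val + 3 * (c 1).val + 9 * (d 0).val + 27 * (d 1).val

/-- the state is in the list -/
def InL (c d : Fin 3 → Fin 3) (p q : Fin 3) (m : ℕ) : Prop := (p, q, m) ∈ Lst (key c d)

instance (c d : Fin 3 → Fin 3) (p q : Fin 3) (m : ℕ) : Decidable (InL c d p q m) := by
  unfold InL; infer_instance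

/-- the first condition on the table -/
def Cd1 (c : Fin 3 → Fin 3) (p : Fin 3) (b0 b1 b2 b3 b4 b5 b6 b7 b8 : Bool) : Prop :=
  ∀ i j x : Fin 3, Both c p i j x →
    Tab b0 b1 b2 b3 b4 b5 b6 b7 b8 i x = true ∨ Tab b0 b1 b2 b3 b4 b5 b6 b7 b8 j x = true

instance (c : Fin 3 → Fin 3) (p : Fin 3) (b0 b1 b2 b3 b4 b5 b6 b7 b8 : Bool) :
    Decidable (Cd1 c p b0 b1 b2 b3 b4 b5 b6 b7 b8) := by
  unfold Cd1; infer_instance

/-- the second condition on the table -/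
def Cd2 (d : Fin 3 → Fin 3) (q : Fin 3) (b0 b1 b2 b3 b4 b5 b6 b7 b8 : Bool) : Prop :=
  ∀ x y i : Fin 3, Both d q x y i →
    Tab b0 b1 b2 b3 b4 b5 b6 b7 b8 i x = true ∨ Tab b0 b1 b2 b3 b4 b5 b6 b7 b8 i y = true

instance (d : Fin 3 → Fin 3) (q : Fin 3) (b0 b1 b2 b3 b4 b5 b6 b7 b8 : Bool) :
    Decidable (Cd2 d q b0 b1 b2 b3 b4 b5 b6 b7 b8) := by
  unfold Cd2; infer_instance

/-- there are exactly four entries -/
def Fr (b0 b1 b2 b3 b4 b5 b6 b7 b8 : Bool) : Prop :=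
  b0.toNat + b1.toNat + b2.toNat + b3.toNat + b4.toNat + b5.toNat + b6.toNat + b7.toNat
        + b8.toNat = 4

instance (b0 b1 b2 b3 b4 b5 b6 b7 b8 : Bool) : Decidable (Fr b0 b1 b2 b3 b4 b5 b6 b7 b8) := by
  unfold Fr; infer_instance

theorem mem_lst :
    ∀ c d : Fin 3 → Fin 3, (Function.Injective c ∧ Function.Injective d ∧ ∀ x, d (c x) ≠ x) →
    ∀ b0 b1 b2 b3 b4 b5 b6 b7 b8 : Bool, Fr b0 b1 b2 b3 b4 b5 b6 b7 b8 →
    ∀ p : Fin 3, Cd1 c p b0 b1 b2 b3 b4 b5 b6 b7 b8 →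
    ∀ q : Fin 3, Cd2 d q b0 b1 b2 b3 b4 b5 b6 b7 b8 →
      InL c d p q (cd9 b0 b1 b2 b3 b4 b5 b6 b7 b8) := by
  decide +kernel

/-- the unique joint vertex `b` of two vertices with apexes `p`, `p'` -/
def Jn (p p' b : Fin 3) : Prop :=
  ∀ i j : Fin 3, i ≠ j → (p = i ∨ p = j) → (p' = i ∨ p' = j) → (b = i ∨ b = j)

instance (p p' b : Fin 3) : Decidable (Jn p p' b) := by unfold Jn; infer_instance

/-- the two tables cover everything outside the row `b` and the column `b'` -/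
def Cv (m m' : ℕ) (b b' : Fin 3) : Prop :=
  ∀ i x : Fin 3, TabN m i x = true ∨ TabN m' i x = true ∨ i = b ∨ x = b'

instance (m m' : ℕ) (b b' : Fin 3) : Decidable (Cv m m' b b') := by unfold Cv; infer_instance

/-- the colour -/
def col (c d : Fin 3 → Fin 3) (p q : Fin 3) : Fin 3 := if q = d p then -(p + c q) else p

theorem col_ne_lst :
    ∀ c d : Fin 3 → Fin 3, (Function.Injective c ∧ Function.Injective d ∧ ∀ x, d (c x) ≠ x) →
    ∀ s ∈ Lst (key c d), ∀ t ∈ Lst (key c d), ∀ b b' : Fin 3, Jn s.1 t.1 b →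
      Jn s.2.1 t.2.1 b' → Cv s.2.2 t.2.2 b b' → col c d s.1 s.2.1 ≠ col c d t.1 t.2.1 := by
  decide +kernel

theorem col_ne (c d : Fin 3 → Fin 3) (h : NoClosed c d) (p q p' q' b b' : Fin 3)
    (f f' : Fin 3 → Fin 3 → Bool)
    (h1 : ∀ i j x : Fin 3, Both c p i j x → f i x = true ∨ f j x = true)
    (h2 : ∀ x y i : Fin 3, Both d q x y i → f i x = true ∨ f i y = true)
    (h1' : ∀ i j x : Fin 3, Both c p' i j x → f' i x = true ∨ f' j x = true)
    (h2' : ∀ x y i : Fin 3, Both d q' x y i → f' i x = true ∨ f' i y = true)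
    (hs : ∑ i : Fin 3, ∑ x : Fin 3, (f i x).toNat = 4)
    (hs' : ∑ i : Fin 3, ∑ x : Fin 3, (f' i x).toNat = 4)
    (hj : Jn p p' b) (hj' : Jn q q' b')
    (hc : ∀ i x : Fin 3, f i x = true ∨ f' i x = true ∨ i = b ∨ x = b') :
    col c d p q ≠ col c d p' q' := by
  have key : ∀ (f : Fin 3 → Fin 3 → Bool) (i x : Fin 3),
      Tab (f 0 0) (f 0 1) (f 0 2) (f 1 0) (f 1 1) (f 1 2) (f 2 0) (f 2 1) (f 2 2) i x = f i x := by
    intro f i x
    fin_cases i <;> fin_cases x <;> rfl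
  have keyN : ∀ (f : Fin 3 → Fin 3 → Bool) (i x : Fin 3),
      TabN (cd9 (f 0 0) (f 0 1) (f 0 2) (f 1 0) (f 1 1) (f 1 2) (f 2 0) (f 2 1) (f 2 2)) i x
        = f i x := by
    intro f i x
    rw [tabN_cd9, key]
  have hno := noClosed_imp c d h
  have m1 := mem_lst c d hno (f 0 0) (f 0 1) (f 0 2) (f 1 0) (f 1 1) (f 1 2)
    (f 2 0) (f 2 1) (f 2 2) (by unfold Fr; simp only [Fin.sum_univ_three] at hs; omega)
    p (by intro i j x hb; rw [key, key]; exact h1 i j x hb)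
    q (by intro x y i hb; rw [key, key]; exact h2 x y i hb)
  have m2 := mem_lst c d hno (f' 0 0) (f' 0 1) (f' 0 2) (f' 1 0) (f' 1 1) (f' 1 2)
    (f' 2 0) (f' 2 1) (f' 2 2) (by unfold Fr; simp only [Fin.sum_univ_three] at hs'; omega)
    p' (by intro i j x hb; rw [key, key]; exact h1' i j x hb)
    q' (by intro x y i hb; rw [key, key]; exact h2' x y i hb)
  exact col_ne_lst c d hno _ m1 _ m2 b b' hj hj' (by
    intro i x
    rw [keyN, keyN]
    exact hc i x)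

end Run7.h678.CU
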