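import Mathlib

set_option autoImplicit false
set_option linter.unusedSectionVars false
set_option linter.unusedVariables false
set_option linter.unnecessarySeqFocus false

/-!
Moon-Moser inequality for complete graphs on four vertices, linearised: a graph with `s` vertices
and `e` edges has at least `s ^ 2 (3 e - s ^ 2) / 54` complete subgraphs on four vertices.
Everything is written with ordered tuples.
-/

namespace Run7.h678.CU

open Finset

section mm
variable {V : Type*} [DecidableEq V]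

/-- `A` is the indicator of a symmetric irreflexive relation -/
structure Ind (A : V → V → ℤ) : Prop where
  zo : ∀ x y, A x y = 0 ∨ A x y = 1
  sy : ∀ x y, A x y = A y x
  ir : ∀ x, A x x = 0

/-- ordered edges -/
def EE (S : Finset V) (A : V → V → ℤ) : ℤ := ∑ x ∈ S, ∑ y ∈ S, A x y

/-- degree -/
def dg (S : Finset V) (A : V → V → ℤ) (x : V) : ℤ := ∑ y ∈ S, A x y

/-- codegree -/
def cn (S : Finset V) (A : V → V → ℤ) (x y : V) : ℤ := ∑ w ∈ S, A x w * A y w

/-- ordered triangles -/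
def T3 (S : Finset V) (A : V → V → ℤ) : ℤ := ∑ x ∈ S, ∑ y ∈ S, A x y * cn S A x y

/-- edges with squared codegrees -/
def C2 (S : Finset V) (A : V → V → ℤ) : ℤ := ∑ x ∈ S, ∑ y ∈ S, A x y * cn S A x y ^ 2

/-- ordered complete graphs on four vertices -/
def N4 (S : Finset V) (A : V → V → ℤ) : ℤ :=
  ∑ x ∈ S, ∑ y ∈ S, ∑ z ∈ S, ∑ w ∈ S, A x y * A x z * A y z * (A x w * A y w * A z w)

variable {S : Finset V} {A : V → V → ℤ}

theorem Ind.nn (h : Ind A) (x y : V) : 0 ≤ A x y := by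
  rcases h.zo x y with e | e <;> rw [e] <;> norm_num

theorem cn_nn (h : Ind A) (x y : V) : 0 ≤ cn S A x y :=
  sum_nonneg fun w _ => mul_nonneg (h.nn _ _) (h.nn _ _)

theorem N4_nn (h : Ind A) : 0 ≤ N4 S A := by
  unfold N4
  refine sum_nonneg fun x _ => sum_nonneg fun y _ => sum_nonneg fun z _ => sum_nonneg fun w _ => ?_
  have := h.nn x y
  have := h.nn x z
  have := h.nn y z
  have := h.nn x w
  have := h.nn y w
  have := h.nn z w
  positivity

theorem step1 (h : Ind A) : 2 * ∑ x ∈ S, dg S A x ^ 2 - S.card * EE S A ≤ T3 S A := by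
  have e1 : ∑ x ∈ S, ∑ y ∈ S, A x y * dg S A x = ∑ x ∈ S, dg S A x ^ 2 := by
    refine sum_congr rfl fun x _ => ?_
    rw [← sum_mul, sq]; rfl
  have e2 : ∑ x ∈ S, ∑ y ∈ S, A x y * dg S A y = ∑ x ∈ S, dg S A x ^ 2 := by
    rw [sum_comm]
    refine sum_congr rfl fun x _ => ?_
    rw [← sum_mul, sq]
    congr 1
    exact sum_congr rfl fun y _ => h.sy y x
  have e3 : ∑ x ∈ S, ∑ y ∈ S, (A x y * dg S A x + A x y * dg S A y - A x y * S.card) =
      2 * ∑ x ∈ S, dg S A x ^ 2 - S.card * EE S A := by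
    have e0 : ∑ x ∈ S, ∑ y ∈ S, A x y * (S.card : ℤ) = S.card * EE S A := by
      unfold EE
      rw [mul_sum]
      refine sum_congr rfl fun x _ => ?_
      rw [← sum_mul, mul_comm]
    simp only [sum_add_distrib, sum_sub_distrib, e1, e2, e0]
    ring
  rw [← e3]
  unfold T3
  refine sum_le_sum fun x _ => sum_le_sum fun y _ => ?_
  have e4 : A x y * dg S A x + A x y * dg S A y - A x y * S.card =
      ∑ w ∈ S, A x y * (A x w + A y w - 1) := by
    rw [← mul_sum]
    simp only [sum_add_distrib, sum_sub_distrib, sum_const, nsmul_eq_mul, mul_one]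
    unfold dg
    ring
  rw [e4]
  unfold cn
  rw [mul_sum]
  refine sum_le_sum fun w _ => ?_
  rcases h.zo x y with e | e <;> rcases h.zo x w with e' | e' <;> rcases h.zo y w with e'' | e'' <;>
    rw [e, e', e''] <;> norm_num

theorem step2 : 12 * S.card * EE S A - 4 * S.card ^ 3 ≤ 9 * ∑ x ∈ S, dg S A x ^ 2 := by
  have e : 12 * S.card * EE S A - 4 * S.card ^ 3 =
      ∑ x ∈ S, (12 * S.card * dg S A x - 4 * S.card ^ 2) := by
    rw [sum_sub_distrib, ← mul_sum, sum_const, nsmul_eq_mul]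
    unfold EE dg
    ring
  rw [e, mul_sum]
  refine sum_le_sum fun x _ => ?_
  nlinarith [sq_nonneg (3 * dg S A x - 2 * S.card)]

theorem step4 (h : Ind A) : 6 * S.card * T3 S A - S.card ^ 2 * EE S A ≤ 9 * C2 S A := by
  have e : 6 * S.card * T3 S A - S.card ^ 2 * EE S A =
      ∑ x ∈ S, ∑ y ∈ S, (6 * S.card * (A x y * cn S A x y) - S.card ^ 2 * A x y) := by
    simp only [sum_sub_distrib, ← mul_sum]
    rfl
  rw [e]
  unfold C2
  rw [mul_sum]
  refine sum_le_sum fun x _ => ?_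
  rw [mul_sum]
  refine sum_le_sum fun y _ => ?_
  nlinarith [mul_nonneg (h.nn x y) (sq_nonneg (3 * cn S A x y - S.card))]

theorem step3 (h : Ind A) : 3 * C2 S A - S.card * T3 S A ≤ 2 * N4 S A := by
  have f1 : ∑ x ∈ S, ∑ y ∈ S, ∑ z ∈ S, A x y * A x z * A y z * cn S A x y = C2 S A := by
    unfold C2
    refine sum_congr rfl fun x _ => sum_congr rfl fun y _ => ?_
    have e : cn S A x y ^ 2 = ∑ z ∈ S, (A x z * A y z) * cn S A x y := by
      rw [← sum_mul, sq]; rfl
    rw [e, mul_sum]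
    refine sum_congr rfl fun z _ => ?_
    ring
  have f2 : ∑ x ∈ S, ∑ y ∈ S, ∑ z ∈ S, A x y * A x z * A y z * cn S A x z = C2 S A := by
    rw [← f1]
    refine sum_congr rfl fun x _ => ?_
    rw [sum_comm]
    refine sum_congr rfl fun y _ => sum_congr rfl fun z _ => ?_
    rw [h.sy z y]; ring
  have f3 : ∑ x ∈ S, ∑ y ∈ S, ∑ z ∈ S, A x y * A x z * A y z * cn S A y z = C2 S A := by
    rw [← f2, sum_comm]
    refine sum_congr rfl fun x _ => sum_congr rfl fun y _ => sum_congr rfl fun z _ => ?_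
    rw [h.sy y x]; ring
  have f4 : ∑ x ∈ S, ∑ y ∈ S, ∑ z ∈ S, A x y * A x z * A y z = T3 S A := by
    unfold T3 cn
    refine sum_congr rfl fun x _ => sum_congr rfl fun y _ => ?_
    rw [mul_sum]
    refine sum_congr rfl fun z _ => ?_
    ring
  have e : 3 * C2 S A - S.card * T3 S A = ∑ x ∈ S, ∑ y ∈ S, ∑ z ∈ S,
      (A x y * A x z * A y z * cn S A x y + A x y * A x z * A y z * cn S A x z +
        A x y * A x z * A y z * cn S A y z - S.card * (A x y * A x z * A y z)) := by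
    simp only [sum_add_distrib, sum_sub_distrib, f1, f2, f3, ← mul_sum, f4]
    ring
  rw [e]
  unfold N4
  rw [mul_sum]
  refine sum_le_sum fun x _ => ?_
  rw [mul_sum]
  refine sum_le_sum fun y _ => ?_
  rw [mul_sum]
  refine sum_le_sum fun z _ => ?_
  have e5 : A x y * A x z * A y z * cn S A x y + A x y * A x z * A y z * cn S A x z +
        A x y * A x z * A y z * cn S A y z - S.card * (A x y * A x z * A y z) =
      ∑ w ∈ S, A x y * A x z * A y z * (A x w * A y w + A x w * A z w + A y w * A z w - 1) := by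
    rw [← mul_sum]
    simp only [sum_add_distrib, sum_sub_distrib, sum_const, nsmul_eq_mul, mul_one]
    unfold cn
    ring
  rw [e5, mul_sum]
  refine sum_le_sum fun w _ => ?_
  have hP : 0 ≤ A x y * A x z * A y z := mul_nonneg (mul_nonneg (h.nn _ _) (h.nn _ _)) (h.nn _ _)
  have hw : A x w * A y w + A x w * A z w + A y w * A z w - 1 ≤ 2 * (A x w * A y w * A z w) := by
    rcases h.zo x w with e | e <;> rcases h.zo y w with e' | e' <;>
      rcases h.zo z w with e'' | e'' <;> rw [e, e', e''] <;> norm_num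
  nlinarith [mul_le_mul_of_nonneg_left hw hP]

theorem mm (h : Ind A) : 2 * S.card ^ 2 * (3 * EE S A - 2 * S.card ^ 2) ≤ 9 * N4 S A := by
  have h1 := step1 (S := S) h
  have h2 := step2 (S := S) (A := A)
  have h3 := step3 (S := S) h
  have h4 := step4 (S := S) h
  have h5 : 15 * S.card * EE S A - 8 * S.card ^ 3 ≤ 9 * T3 S A := by linarith
  have h6 : (S.card : ℤ) * (15 * S.card * EE S A - 8 * S.card ^ 3) ≤ S.card * (9 * T3 S A) :=
    mul_le_mul_of_nonneg_left h5 (by positivity)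
  nlinarith [h3, h4, h6]

/-- the number of ordered edges is even -/
theorem even_EE (h : Ind A) : (2 : ℤ) ∣ EE S A := by
  have h1 : ((EE S A : ℤ) : ZMod 2) = 0 := by
    unfold EE
    rw [← sum_product']
    push_cast
    refine sum_involution (fun p _ => (p.2, p.1)) ?_ ?_ ?_ ?_
    · rintro ⟨x, y⟩ _
      simp only
      rw [h.sy y x, ← two_mul, show (2 : ZMod 2) = 0 from rfl, zero_mul]
    · rintro ⟨x, y⟩ _ hne heq
      simp only [Prod.mk.injEq] at heq
      apply hne
      simp only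
      rw [heq.1, h.ir]; simp
    · rintro ⟨x, y⟩ hp
      simp only [mem_product] at hp ⊢
      exact ⟨hp.2, hp.1⟩
    · rintro ⟨x, y⟩ _
      rfl
  exact (ZMod.intCast_zmod_eq_zero_iff_dvd _ 2).mp h1

theorem sq_div (s : ℕ) : 3 * (s ^ 2 / 3) ≤ s ^ 2 ∧ s ^ 2 ≤ 3 * (s ^ 2 / 3) + 1 := by
  have h1 : s ^ 2 % 3 = 0 ∨ s ^ 2 % 3 = 1 := by
    have : s % 3 = 0 ∨ s % 3 = 1 ∨ s % 3 = 2 := by omega
    rcases this with h | h | h <;> simp [Nat.pow_mod, h]
  omega

theorem turan4 (h : Ind A) :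
    4 * (S.card : ℤ) ^ 2 * (EE S A - 2 * ((S.card ^ 2 / 3 : ℕ) : ℤ)) ≤ 9 * N4 S A := by
  obtain ⟨k, hk⟩ := even_EE (S := S) h
  obtain ⟨q1, q2⟩ := sq_div S.card
  set q := S.card ^ 2 / 3 with hq
  have hN := N4_nn (S := S) h
  have hm := mm (S := S) h
  have q1' : 3 * (q : ℤ) ≤ (S.card : ℤ) ^ 2 := by exact_mod_cast q1
  have q2' : (S.card : ℤ) ^ 2 ≤ 3 * q + 1 := by exact_mod_cast q2
  rw [hk] at hm ⊢
  have hs : (0 : ℤ) ≤ (S.card : ℤ) ^ 2 := by positivity
  by_cases hc : k ≤ q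
  · have : (S.card : ℤ) ^ 2 * (2 * k - 2 * q) ≤ 0 :=
      mul_nonpos_of_nonneg_of_nonpos hs (by linarith)
    nlinarith
  · have hc' : (q : ℤ) + 1 ≤ k := by omega
    have h3 : 4 * (k - q) ≤ 6 * k - 2 * (S.card : ℤ) ^ 2 := by linarith
    have h4 := mul_le_mul_of_nonneg_left h3 hs
    nlinarith

end mm

end Run7.h678.CU
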