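import Pool.Agent.Run7.h678.CU.Loc
import Pool.Agent.Run7.h678.CU.MM

set_option autoImplicit false
set_option linter.unusedSectionVars false
set_option linter.unusedVariables false

/-!
Coverings with disjoint triples: the deficiency is at most cubic in the number of the vertices
outside the triples and linear in the number of the defects.
-/

namespace Run7.h678.CU

open Finset Run7.h678.Sat

section
variable {V : Type*} [Fintype V] [DecidableEq V]

/-- exactly one member of `T` joins `y`, `z` to the block, and `y`, `z` are no defects -/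
def AA (T : Finset (Finset V)) (C : Finset V) (y z : V) : ℤ :=
  if y ≠ z ∧ bx T C {y} {z} = 1 ∧ dd T C y = 0 ∧ dd T C z = 0 then 1 else 0

theorem AA_ind (T : Finset (Finset V)) (C : Finset V) : Ind (AA T C) where
  zo := by intro x y; unfold AA; split_ifs <;> simp
  sy := by
    intro x y
    unfold AA
    rw [bx_swap' T C {x} {y}]
    congr 1
    apply propext
    constructor
    · rintro ⟨h1, h2, h3, h4⟩; exact ⟨h1.symm, h2, h4, h3⟩
    · rintro ⟨h1, h2, h3, h4⟩; exact ⟨h1.symm, h2, h4, h3⟩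
  ir := by intro x; unfold AA; simp

theorem AA_one {T : Finset (Finset V)} {C : Finset V} {y z : V} (h : AA T C y z ≠ 0) :
    AA T C y z = 1 ∧ y ≠ z ∧ bx T C {y} {z} = 1 ∧ dd T C y = 0 ∧ dd T C z = 0 := by
  unfold AA at h ⊢
  split_ifs at h ⊢ with hc
  · exact ⟨rfl, hc⟩
  · exact absurd rfl h

theorem bx_one (T : Finset (Finset V)) (C : Finset V) (y z : V) :
    bx T C {y} {z} = ∑ a ∈ C, g T a y z := by
  unfold bx
  simp only [sum_singleton]

theorem cod {T : Finset (Finset V)} (hT : Cov T) {C : Finset V} (hC : C.card = 3) {y z : V}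
    (hy : y ∉ C) (hz : z ∉ C) :
    (2 : ℤ) - 2 * (if y = z then 1 else 0) ≤ (bx T C {y} {z} : ℕ) +
      2 * ((dd T C y : ℤ) + dd T C z) + AA T C y z := by
  have hA : 0 ≤ AA T C y z := (AA_ind T C).nn _ _
  by_cases hyz : y = z
  · rw [if_pos hyz]
    positivity
  · rw [if_neg hyz]
    have h1 := loc3 hT hC hy hz hyz
    rw [← bx_one] at h1
    by_cases h0 : dd T C y = 0 ∧ dd T C z = 0
    · by_cases h2 : bx T C {y} {z} = 1
      · have : AA T C y z = 1 := by
          unfold AA; rw [if_pos ⟨hyz, h2, h0⟩]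
        rw [this, h2]
        push_cast
        have : (0 : ℤ) ≤ (dd T C y : ℤ) + dd T C z := by positivity
        linarith
      · have h3 : 2 ≤ bx T C {y} {z} := by omega
        have h3' : (2 : ℤ) ≤ (bx T C {y} {z} : ℕ) := by exact_mod_cast h3
        have : (0 : ℤ) ≤ (dd T C y : ℤ) + dd T C z := by positivity
        linarith
    · have h3 : 1 ≤ dd T C y + dd T C z := by omega
      have h3' : (1 : ℤ) ≤ (dd T C y : ℤ) + dd T C z := by exact_mod_cast h3
      have : (0 : ℤ) ≤ (bx T C {y} {z} : ℕ) := by positivity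
      linarith

theorem codsum {T : Finset (Finset V)} (hT : Cov T) {C R : Finset V} (hC : C.card = 3)
    (hR : ∀ y ∈ R, y ∉ C) :
    2 * ((R.card : ℤ) ^ 2 - R.card) ≤ (bx T C R R : ℕ) +
      4 * R.card * ∑ z ∈ R, (dd T C z : ℤ) + EE R (AA T C) := by
  have e1 : ∑ y ∈ R, ∑ z ∈ R, ((2 : ℤ) - 2 * (if y = z then 1 else 0)) =
      2 * ((R.card : ℤ) ^ 2 - R.card) := by
    have e0 : ∀ y ∈ R, ∑ z ∈ R, (if y = z then (1 : ℤ) else 0) = 1 := by
      intro y hy; rw [sum_ite_eq, if_pos hy]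
    have e2 : ∑ y ∈ R, ∑ z ∈ R, (if y = z then (1 : ℤ) else 0) = R.card := by
      rw [sum_congr rfl e0]; simp
    simp only [sum_sub_distrib, ← mul_sum, e2, sum_const, nsmul_eq_mul]
    ring
  have e3 : ∑ y ∈ R, ∑ z ∈ R, ((bx T C {y} {z} : ℕ) +
      2 * ((dd T C y : ℤ) + dd T C z) + AA T C y z) = (bx T C R R : ℕ) +
      4 * R.card * ∑ z ∈ R, (dd T C z : ℤ) + EE R (AA T C) := by
    have e4 : bx T C R R = ∑ y ∈ R, ∑ z ∈ R, bx T C {y} {z} := by
      simp only [bx_one]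
      unfold bx
      rw [sum_comm]
      refine sum_congr rfl fun y _ => ?_
      rw [sum_comm]
    rw [e4]
    simp only [sum_add_distrib, ← mul_sum, sum_const, nsmul_eq_mul]
    unfold EE
    push_cast
    ring
  rw [← e1, ← e3]
  exact sum_le_sum fun y hy => sum_le_sum fun z hz => cod hT hC (hR y hy) (hR z hz)

/-- the excess of the vertex `v` for two blocks -/
def ww (T : Finset (Finset V)) (C C' : Finset V) (v : V) : ℤ :=
  (bx T C C' {v} : ℕ) + 5 * (∑ x ∈ C', (dd T C x : ℤ) + ∑ a ∈ C, (dd T C' a : ℤ) +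
    dd T C v + dd T C' v) - 4

theorem ww_aux {T : Finset (Finset V)} (hT : Cov T) {C C' : Finset V} (hC : C.card = 3)
    (hC' : C'.card = 3) (hd : Disjoint C C') {v : V} (h : v ∉ C) (h' : v ∉ C') :
    4 ≤ bx T C C' {v} + 4 * (∑ x ∈ C', dd T C x + ∑ a ∈ C, dd T C' a + dd T C v + dd T C' v) := by
  rw [bx_z, sum_singleton]
  exact loc2 hT hC hC' hd h h'

theorem ww_nn {T : Finset (Finset V)} (hT : Cov T) {C C' : Finset V} (hC : C.card = 3)
    (hC' : C'.card = 3) (hd : Disjoint C C') {v : V} (h : v ∉ C) (h' : v ∉ C') :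
    0 ≤ ww T C C' v := by
  have h1 := ww_aux hT hC hC' hd h h'
  unfold ww
  zify at h1
  have h2 : (0 : ℤ) ≤ ∑ x ∈ C', (dd T C x : ℤ) + ∑ a ∈ C, (dd T C' a : ℤ) +
    dd T C v + dd T C' v := by positivity
  linarith

theorem ww_zero {T : Finset (Finset V)} (hT : Cov T) {C C' : Finset V} (hC : C.card = 3)
    (hC' : C'.card = 3) (hd : Disjoint C C') {v : V} (h : v ∉ C) (h' : v ∉ C')
    (h0 : ww T C C' v ≤ 0) :
    bx T C C' {v} = 4 ∧ ∑ x ∈ C', dd T C x = 0 ∧ ∑ a ∈ C, dd T C' a = 0 ∧ dd T C v = 0 ∧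
      dd T C' v = 0 := by
  have h1 := ww_aux hT hC hC' hd h h'
  unfold ww at h0
  have h2 : bx T C C' {v} + 5 * (∑ x ∈ C', dd T C x + ∑ a ∈ C, dd T C' a +
    dd T C v + dd T C' v) ≤ 4 := by
    zify
    linarith
  omega

/-- the indicator of the ordered complete graphs on four vertices -/
def KK (T : Finset (Finset V)) (C : Finset V) (x y z w : V) : ℤ :=
  AA T C x y * AA T C x z * AA T C y z * (AA T C x w * AA T C y w * AA T C z w)

theorem KK_cases (T : Finset (Finset V)) (C : Finset V) (x y z w : V) :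
    KK T C x y z w = 0 ∨ (KK T C x y z w = 1 ∧ AA T C x y ≠ 0 ∧ AA T C x z ≠ 0 ∧
      AA T C y z ≠ 0 ∧ AA T C x w ≠ 0 ∧ AA T C y w ≠ 0 ∧ AA T C z w ≠ 0) := by
  by_cases h : KK T C x y z w = 0
  · left; exact h
  · right
    have h' := h
    unfold KK at h'
    simp only [mul_eq_zero, not_or] at h'
    obtain ⟨⟨⟨h1, h2⟩, h3⟩, ⟨h4, h5⟩, h6⟩ := h'
    refine ⟨?_, h1, h2, h3, h4, h5, h6⟩
    unfold KK
    rw [(AA_one h1).1, (AA_one h2).1, (AA_one h3).1, (AA_one h4).1, (AA_one h5).1, (AA_one h6).1]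
    norm_num

theorem pig' : ∀ a b c d : Fin 3, a = b ∨ a = c ∨ b = c ∨ a = d ∨ b = d ∨ c = d := by
  decide

theorem pig (a b c d : Fin 3) (h1 : a ≠ b) (h2 : a ≠ c) (h3 : b ≠ c) (h4 : a ≠ d) (h5 : b ≠ d)
    (h6 : c ≠ d) : False := by
  rcases pig' a b c d with h | h | h | h | h | h
  · exact h1 h
  · exact h2 h
  · exact h3 h
  · exact h4 h
  · exact h5 h
  · exact h6 h

theorem good_of {T : Finset (Finset V)} {C : Finset V} {v : V} (h : v ∉ C) (h0 : dd T C v = 0) :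
    Good T C v := by
  by_contra hg
  unfold dd at h0
  rw [if_pos ⟨h, hg⟩] at h0
  omega

theorem hit {T : Finset (Finset V)} (hT : Cov T) {C C' : Finset V} (hC : C.card = 3)
    (hC' : C'.card = 3) (hd : Disjoint C C') {x y z w : V} (hx : x ∉ C) (hx' : x ∉ C')
    (hy : y ∉ C) (hy' : y ∉ C') (hz : z ∉ C) (hz' : z ∉ C') (hw : w ∉ C) (hw' : w ∉ C') :
    KK T C x y z w * KK T C' x y z w ≤
      ww T C C' x + ww T C C' y + ww T C C' z + ww T C C' w := by
  have n1 := ww_nn hT hC hC' hd hx hx'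
  have n2 := ww_nn hT hC hC' hd hy hy'
  have n3 := ww_nn hT hC hC' hd hz hz'
  have n4 := ww_nn hT hC hC' hd hw hw'
  rcases KK_cases T C x y z w with h | ⟨h, a1, a2, a3, a4, a5, a6⟩
  · rw [h, zero_mul]; linarith
  rcases KK_cases T C' x y z w with h' | ⟨h', b1, b2, b3, b4, b5, b6⟩
  · rw [h', mul_zero]; linarith
  rw [h, h', one_mul]
  by_contra hcon
  push Not at hcon
  obtain ⟨x4, d1, d2, dx, dx'⟩ := ww_zero hT hC hC' hd hx hx' (by linarith)
  obtain ⟨y4, -, -, dy, dy'⟩ := ww_zero hT hC hC' hd hy hy' (by linarith)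
  obtain ⟨z4, -, -, dz, dz'⟩ := ww_zero hT hC hC' hd hz hz' (by linarith)
  obtain ⟨w4, -, -, dw, dw'⟩ := ww_zero hT hC hC' hd hw hw' (by linarith)
  have g1 : ∀ v ∈ C', Good T C v := fun v hv =>
    good_of (fun h => (disjoint_left.mp hd) h hv) ((sum_eq_zero_iff.mp d1) v hv)
  have g2 : ∀ v ∈ C, Good T C' v := fun v hv =>
    good_of (fun h => (disjoint_left.mp hd) hv h) ((sum_eq_zero_iff.mp d2) v hv)
  obtain ⟨κ, hκ⟩ := exists_colour hT hC hC' hd g1 g2
  have bz : ∀ v, bx T C C' {v} = ∑ a ∈ C, ∑ c ∈ C', g T a c v := by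
    intro v; rw [bx_z, sum_singleton]
  rw [bz] at x4 y4 z4 w4
  have key : ∀ u v : V, u ∉ C → u ∉ C' → v ∉ C → v ∉ C' → dd T C u = 0 → dd T C' u = 0 →
      dd T C v = 0 → dd T C' v = 0 → ∑ a ∈ C, ∑ c ∈ C', g T a c u = 4 →
      ∑ a ∈ C, ∑ c ∈ C', g T a c v = 4 → AA T C u v ≠ 0 → AA T C' u v ≠ 0 → κ u ≠ κ v := by
    intro u v u1 u2 v1 v2 du du' dv dv' hu hv ha hb
    obtain ⟨-, huv, hone, -⟩ := AA_one ha
    obtain ⟨-, -, hone', -⟩ := AA_one hb
    rw [bx_one] at hone hone'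
    exact hκ u v u1 u2 v1 v2 huv (good_of u1 du) (good_of u2 du') (good_of v1 dv)
      (good_of v2 dv') hu hv hone hone'
  exact pig (κ x) (κ y) (κ z) (κ w)
    (key x y hx hx' hy hy' dx dx' dy dy' x4 y4 a1 b1)
    (key x z hx hx' hz hz' dx dx' dz dz' x4 z4 a2 b2)
    (key y z hy hy' hz hz' dy dy' dz dz' y4 z4 a3 b3)
    (key x w hx hx' hw hw' dx dx' dw dw' x4 w4 a4 b4)
    (key y w hy hy' hw hw' dy dy' dw dw' y4 w4 a5 b5)
    (key z w hz hz' hw hw' dz dz' dw dw' z4 w4 a6 b6)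

/-- the ordered quadruples -/
def QQ (R : Finset V) : Finset (V × V × V × V) := R ×ˢ (R ×ˢ (R ×ˢ R))

theorem sum_QQ (R : Finset V) (F : V → V → V → V → ℤ) :
    ∑ q ∈ QQ R, F q.1 q.2.1 q.2.2.1 q.2.2.2 =
      ∑ x ∈ R, ∑ y ∈ R, ∑ z ∈ R, ∑ w ∈ R, F x y z w := by
  unfold QQ
  rw [sum_product]
  refine sum_congr rfl fun x _ => ?_
  rw [sum_product]
  refine sum_congr rfl fun y _ => ?_
  rw [sum_product]

theorem card_QQ (R : Finset V) : (QQ R).card = R.card ^ 4 := by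
  unfold QQ
  rw [card_product, card_product, card_product]
  ring

/-- the value at a quadruple -/
def kk (T : Finset (Finset V)) (C : Finset V) (q : V × V × V × V) : ℤ :=
  KK T C q.1 q.2.1 q.2.2.1 q.2.2.2

theorem sum_kk (T : Finset (Finset V)) (C R : Finset V) :
    ∑ q ∈ QQ R, kk T C q = N4 R (AA T C) := by
  unfold kk
  rw [sum_QQ R (fun x y z w => KK T C x y z w)]
  rfl

theorem kk_sq (T : Finset (Finset V)) (C : Finset V) (q : V × V × V × V) :
    kk T C q * kk T C q = kk T C q := by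
  unfold kk
  rcases KK_cases T C q.1 q.2.1 q.2.2.1 q.2.2.2 with h | ⟨h, -⟩ <;> rw [h] <;> norm_num

theorem hitsum {T : Finset (Finset V)} (hT : Cov T) {C C' R : Finset V} (hC : C.card = 3)
    (hC' : C'.card = 3) (hd : Disjoint C C') (h1 : ∀ y ∈ R, y ∉ C) (h2 : ∀ y ∈ R, y ∉ C') :
    ∑ q ∈ QQ R, kk T C q * kk T C' q ≤ 4 * R.card ^ 3 * ∑ v ∈ R, ww T C C' v := by
  have e : ∑ x ∈ R, ∑ y ∈ R, ∑ z ∈ R, ∑ w ∈ R,
      (ww T C C' x + ww T C C' y + ww T C C' z + ww T C C' w) =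
      4 * R.card ^ 3 * ∑ v ∈ R, ww T C C' v := by
    simp only [sum_add_distrib, ← mul_sum, sum_const, nsmul_eq_mul]
    ring
  rw [← e]
  unfold kk
  rw [sum_QQ R (fun x y z w => KK T C x y z w * KK T C' x y z w)]
  exact sum_le_sum fun x hx => sum_le_sum fun y hy => sum_le_sum fun z hz => sum_le_sum fun w hw =>
    hit hT hC hC' hd (h1 x hx) (h2 x hx) (h1 y hy) (h2 y hy) (h1 z hz) (h2 z hz) (h1 w hw)
      (h2 w hw)

variable {r : ℕ} {B : Fin r → Finset V}

/-- the triples inside the blocks -/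
theorem inner {T : Finset (Finset V)} (hT : Cov T) (hB : ∀ i, (B i).card = 3)
    (hdis : ∀ i j, i ≠ j → Disjoint (B i) (B j)) :
    (12 * r ^ 3 - 18 * r ^ 2 + 6 * r - 72 * r * ∑ i, ∑ j, (D T B i j : ℤ) : ℤ) ≤
      (bx T (univ.biUnion B) (univ.biUnion B) (univ.biUnion B) : ℕ) := by
  have hA : bx T (univ.biUnion B) (univ.biUnion B) (univ.biUnion B) =
      ∑ i, ∑ j, ∑ k, bx T (B i) (B j) (B k) := by
    rw [bx_first T hdis]
    refine sum_congr rfl fun i _ => ?_
    rw [bx_second T hdis]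
    refine sum_congr rfl fun j _ => ?_
    rw [bx_third T hdis]
  rw [← total_three, hA]
  push_cast
  refine sum_le_sum fun i _ => sum_le_sum fun j _ => sum_le_sum fun k _ => ?_
  have hD : ∀ a b, (0 : ℤ) ≤ D T B a b := fun a b => by positivity
  have n1 := hD i j
  have n2 := hD j i
  have n3 := hD i k
  have n4 := hD k i
  have n5 := hD j k
  have n6 := hD k j
  have nb : (0 : ℤ) ≤ bx T (B i) (B j) (B k) := by positivity
  by_cases hij : i = j
  · by_cases hjk : j = k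
    · subst hij; subst hjk
      simp only [if_true]
      linarith
    · subst hij
      have := blk_iik hT hB hdis hjk
      zify at this
      simp only [if_true, if_neg hjk]
      linarith
  · by_cases hjk : j = k
    · subst hjk
      have := blk_iik hT hB hdis (Ne.symm hij)
      rw [bx_swap', bx_swap] at this
      zify at this
      simp only [if_true, if_neg hij]
      linarith
    · by_cases hik : i = k
      · subst hik
        have := blk_iik hT hB hdis hij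
        rw [bx_swap'] at this
        zify at this
        simp only [if_true, if_neg hij, if_neg hjk]
        linarith
      · have := blk_ijk hT hB hdis hij hik hjk
        zify at this
        simp only [if_neg hij, if_neg hjk, if_neg hik]
        linarith

/-- two blocks and the rest -/
theorem mid {T : Finset (Finset V)} (hT : Cov T) (hB : ∀ i, (B i).card = 3)
    (hdis : ∀ i j, i ≠ j → Disjoint (B i) (B j)) {R : Finset V}
    (hR : ∀ (i : Fin r), ∀ z ∈ R, z ∉ B i) :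
    4 * (R.card : ℤ) ^ 3 * (R.card * (4 * r ^ 2 - 2 * r) - 10 * R.card * ∑ i, ∑ j, (D T B i j : ℤ) -
        10 * r * ∑ i, ∑ z ∈ R, (dd T (B i) z : ℤ)) +
      ∑ q ∈ QQ R, ((∑ i, kk T (B i) q) ^ 2 - ∑ i, kk T (B i) q) ≤
      4 * (R.card : ℤ) ^ 3 * (bx T (univ.biUnion B) (univ.biUnion B) R : ℕ) := by
  have hC : bx T (univ.biUnion B) (univ.biUnion B) R = ∑ i, ∑ j, bx T (B i) (B j) R := by
    rw [bx_first T hdis]
    refine sum_congr rfl fun i _ => ?_
    rw [bx_second T hdis]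
  have hz : ∀ i j, bx T (B i) (B j) R = ∑ v ∈ R, bx T (B i) (B j) {v} := by
    intro i j
    rw [bx_z]
    refine sum_congr rfl fun v _ => ?_
    rw [bx_z, sum_singleton]
  -- the term for two blocks
  have key : ∀ i j : Fin r, 4 * (R.card : ℤ) ^ 3 * (R.card * (4 - 2 * (if i = j then 1 else 0)) -
        5 * (R.card * (D T B i j + D T B j i) + ∑ z ∈ R, (dd T (B i) z : ℤ) +
          ∑ z ∈ R, (dd T (B j) z : ℤ))) +
      ∑ q ∈ QQ R, (kk T (B i) q * kk T (B j) q - (if i = j then kk T (B i) q else 0)) ≤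
      4 * (R.card : ℤ) ^ 3 * (bx T (B i) (B j) R : ℕ) := by
    intro i j
    have hc : (0 : ℤ) ≤ 4 * (R.card : ℤ) ^ 3 := by positivity
    by_cases hij : i = j
    · subst hij
      simp only [if_true, kk_sq, sub_self, sum_const_zero, add_zero]
      refine mul_le_mul_of_nonneg_left ?_ hc
      have h1 : ∑ v ∈ R, (2 : ℤ) ≤ ∑ v ∈ R, ((bx T (B i) (B i) {v} : ℕ) +
          2 * (dd T (B i) v : ℤ)) := by
        refine sum_le_sum fun v hv => ?_
        have := blk_iiz hT hB (hR i v hv)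
        exact_mod_cast this
      rw [sum_const, nsmul_eq_mul, sum_add_distrib, ← mul_sum] at h1
      rw [hz]
      push_cast
      have n1 : (0 : ℤ) ≤ ∑ z ∈ R, (dd T (B i) z : ℤ) := by positivity
      have n2 : (0 : ℤ) ≤ (R.card : ℤ) * (D T B i i + D T B i i) := by positivity
      linarith
    · simp only [if_neg hij, sub_zero, mul_zero]
      have h1 := hitsum (R := R) hT (hB i) (hB j) (hdis i j hij) (hR i) (hR j)
      have h2 : ∑ v ∈ R, ww T (B i) (B j) v = (bx T (B i) (B j) R : ℕ) -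
          (R.card * 4 - 5 * (R.card * (D T B i j + D T B j i) + ∑ z ∈ R, (dd T (B i) z : ℤ) +
          ∑ z ∈ R, (dd T (B j) z : ℤ))) := by
        unfold ww D
        rw [hz]
        simp only [sum_add_distrib, sum_sub_distrib, ← mul_sum, sum_const, nsmul_eq_mul]
        push_cast
        ring
      rw [h2] at h1
      linarith
  have h1 := sum_le_sum (s := univ) fun i _ => sum_le_sum (s := univ) fun j _ => key i j
  have h2 : ∑ i : Fin r, ∑ j : Fin r, 4 * (R.card : ℤ) ^ 3 * (bx T (B i) (B j) R : ℕ) =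
      4 * (R.card : ℤ) ^ 3 * (bx T (univ.biUnion B) (univ.biUnion B) R : ℕ) := by
    rw [hC]
    push_cast
    simp only [mul_sum]
  rw [h2] at h1
  refine le_trans (le_of_eq ?_) h1
  have e3 : ∑ x : Fin r, ∑ y : Fin r, (D T B y x : ℤ) = ∑ i, ∑ j, (D T B i j : ℤ) := sum_comm
  have e4 : ∑ i : Fin r, ∑ j : Fin r, ∑ q ∈ QQ R,
      (kk T (B i) q * kk T (B j) q - (if i = j then kk T (B i) q else 0)) =
      ∑ q ∈ QQ R, ((∑ i, kk T (B i) q) ^ 2 - ∑ i, kk T (B i) q) := by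
    have : ∀ q : V × V × V × V, (∑ i, kk T (B i) q) ^ 2 - ∑ i, kk T (B i) q =
        ∑ i : Fin r, ∑ j : Fin r,
          (kk T (B i) q * kk T (B j) q - (if i = j then kk T (B i) q else 0)) := by
      intro q
      simp only [sum_sub_distrib, sum_ite_eq, mem_univ, if_true]
      rw [sq, sum_mul_sum]
    simp only [this]
    rw [sum_comm (s := QQ R) (t := univ)]
    exact sum_congr rfl fun i _ => sum_comm
  simp only [sum_add_distrib]
  rw [e4]
  congr 1
  simp only [← mul_sum, sum_add_distrib, sum_sub_distrib, sum_ite_eq, mem_univ, if_true,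
    sum_const, card_univ, Fintype.card_fin, nsmul_eq_mul, e3]
  ring

/-- one block and the rest -/
theorem outer {T : Finset (Finset V)} (hT : Cov T) (hB : ∀ i, (B i).card = 3)
    (hdis : ∀ i j, i ≠ j → Disjoint (B i) (B j)) {R : Finset V}
    (hR : ∀ (i : Fin r), ∀ z ∈ R, z ∉ B i) :
    4 * (R.card : ℤ) ^ 2 * (2 * r * ((R.card : ℤ) ^ 2 - R.card) -
        2 * r * ((R.card ^ 2 / 3 : ℕ) : ℤ) - 4 * R.card * ∑ i, ∑ z ∈ R, (dd T (B i) z : ℤ)) -
      9 * ∑ q ∈ QQ R, ∑ i, kk T (B i) q ≤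
      4 * (R.card : ℤ) ^ 2 * (bx T (univ.biUnion B) R R : ℕ) := by
  have hC : bx T (univ.biUnion B) R R = ∑ i, bx T (B i) R R := bx_first T hdis R R
  have key : ∀ i : Fin r, 4 * (R.card : ℤ) ^ 2 * (2 * ((R.card : ℤ) ^ 2 - R.card) -
        2 * ((R.card ^ 2 / 3 : ℕ) : ℤ) - 4 * R.card * ∑ z ∈ R, (dd T (B i) z : ℤ)) -
      9 * ∑ q ∈ QQ R, kk T (B i) q ≤ 4 * (R.card : ℤ) ^ 2 * (bx T (B i) R R : ℕ) := by
    intro i
    have h1 := codsum (R := R) hT (hB i) (hR i)
    have h2 := turan4 (S := R) (AA_ind T (B i))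
    rw [sum_kk]
    have hc : (0 : ℤ) ≤ 4 * (R.card : ℤ) ^ 2 := by positivity
    have h3 := mul_le_mul_of_nonneg_left h1 hc
    linarith
  have h1 := sum_le_sum (s := univ) fun i _ => key i
  have e : ∑ q ∈ QQ R, ∑ i, kk T (B i) q = ∑ i, ∑ q ∈ QQ R, kk T (B i) q := sum_comm
  have e2 : ∑ i : Fin r, 4 * (R.card : ℤ) ^ 2 * (bx T (B i) R R : ℕ) =
      4 * (R.card : ℤ) ^ 2 * (bx T (univ.biUnion B) R R : ℕ) := by
    rw [hC]
    push_cast
    rw [mul_sum]
  rw [e2] at h1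
  refine le_trans (le_of_eq ?_) h1
  rw [e]
  simp only [sum_sub_distrib, sum_const, card_univ, Fintype.card_fin, nsmul_eq_mul, ← mul_sum]
  ring

theorem quad (s : ℕ) (m : ℤ) :
    36 * (s : ℤ) * m - (9 * s + 1) ^ 2 ≤ 4 * (m ^ 2 - m) := by
  nlinarith [sq_nonneg (2 * m - (9 * s + 1))]

/-- the inequality before the comparison with the number of Turan -/
theorem main96 {T : Finset (Finset V)} (hT : Cov T) (hB : ∀ i, (B i).card = 3)
    (hdis : ∀ i j, i ≠ j → Disjoint (B i) (B j)) (s : ℕ) (hs : Fintype.card V = 3 * r + s) :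
    (16 * (12 * r ^ 3 - 18 * r ^ 2 + 6 * r + 3 * (s * (4 * r ^ 2 - 2 * r)) +
      3 * (2 * r * (s ^ 2 - s) - 2 * r * ((s ^ 2 / 3 : ℕ) : ℤ))) : ℤ) ≤
      96 * T.card + 480 * (3 * r + s) * ∑ i, ∑ x : V, (dd T (B i) x : ℤ) + 300 * s ^ 3 := by
  set U : Finset V := univ.biUnion B with hU
  have hUc : U.card = 3 * r := by
    rw [hU, card_biUnion (fun i _ j _ h => hdis i j h)]
    simp only [hB, sum_const, card_univ, Fintype.card_fin, smul_eq_mul]
    ring
  have hRc : Uᶜ.card = s := by rw [card_compl, hUc, hs]; omega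
  have hnot : ∀ (i : Fin r), ∀ z ∈ Uᶜ, z ∉ B i := by
    intro i z hz h
    rw [mem_compl] at hz
    exact hz (mem_biUnion.mpr ⟨i, mem_univ _, h⟩)
  have h0 := split (T := T) U
  have h1 := sum_g_le hT.1
  have hA := inner hT hB hdis
  have hM := mid hT hB hdis hnot
  have hO := outer hT hB hdis hnot
  rw [← hU] at hA hM hO
  rw [hRc] at hM hO
  have hdd : ∑ i, ∑ x : V, (dd T (B i) x : ℤ) =
      ∑ i, ∑ j, (D T B i j : ℤ) + ∑ i, ∑ z ∈ Uᶜ, (dd T (B i) z : ℤ) := by
    rw [← sum_add_distrib]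
    refine sum_congr rfl fun i _ => ?_
    rw [← sum_add_sum_compl U]
    congr 1
    rw [hU, sum_biUnion (fun i _ j _ h => hdis i j h)]
    refine sum_congr rfl fun j _ => ?_
    unfold D
    push_cast
    rfl
  rw [hdd]
  set a : ℤ := ∑ i, ∑ j, (D T B i j : ℤ) with ha
  set b : ℤ := ∑ i, ∑ z ∈ Uᶜ, (dd T (B i) z : ℤ) with hb
  have g1 : (0 : ℤ) ≤ a := by positivity
  have g2 : (0 : ℤ) ≤ b := by positivity
  have hq : ∑ q ∈ QQ Uᶜ, (36 * (s : ℤ) * (∑ i, kk T (B i) q) - (9 * s + 1) ^ 2) ≤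
      ∑ q ∈ QQ Uᶜ, 4 * ((∑ i, kk T (B i) q) ^ 2 - ∑ i, kk T (B i) q) :=
    sum_le_sum fun q _ => quad s _
  rw [sum_sub_distrib, ← mul_sum, ← mul_sum, sum_const, card_QQ, hRc, nsmul_eq_mul] at hq
  push_cast at hq
  set P : ℤ := ∑ q ∈ QQ Uᶜ, ((∑ i, kk T (B i) q) ^ 2 - ∑ i, kk T (B i) q) with hP
  set L : ℤ := ∑ q ∈ QQ Uᶜ, ∑ i, kk T (B i) q with hL
  set W : ℤ := ((s ^ 2 / 3 : ℕ) : ℤ) with hW
  zify at h0 h1
  have k1 : (0 : ℤ) ≤ (s : ℤ) * a := by positivity
  have k2 : (0 : ℤ) ≤ (s : ℤ) * b := by positivity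
  have k3 : (0 : ℤ) ≤ (r : ℤ) * a := by positivity
  have k4 : (0 : ℤ) ≤ (r : ℤ) * b := by positivity
  rcases Nat.eq_zero_or_pos s with hs0 | hs0
  · have b1 : (0 : ℤ) ≤ (bx T U U Uᶜ : ℕ) := by positivity
    have b2 : (0 : ℤ) ≤ (bx T U Uᶜ Uᶜ : ℕ) := by positivity
    have hW0 : W = 0 := by rw [hW, hs0]; norm_num
    rw [hW0, hs0] at *
    push_cast at *
    nlinarith
  · have hs1 : (1 : ℤ) ≤ s := by exact_mod_cast hs0
    have hs3 : (0 : ℤ) < (s : ℤ) ^ 3 := by positivity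
    -- multiply everything by s ^ 3
    have c1 := mul_le_mul_of_nonneg_left hA (le_of_lt hs3)
    have c2 := mul_le_mul_of_nonneg_left hO (by positivity : (0 : ℤ) ≤ s)
    have c3 := mul_le_mul_of_nonneg_left (h0.trans h1) (le_of_lt hs3)
    have c4 : (s : ℤ) ^ 4 * (9 * s + 1) ^ 2 ≤ (s : ℤ) ^ 3 * (100 * s ^ 3) := by
      have : (9 * (s : ℤ) + 1) ^ 2 ≤ 100 * s ^ 2 := by nlinarith
      calc (s : ℤ) ^ 4 * (9 * s + 1) ^ 2 ≤ s ^ 4 * (100 * s ^ 2) :=
            mul_le_mul_of_nonneg_left this (by positivity)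
        _ = (s : ℤ) ^ 3 * (100 * s ^ 3) := by ring
    have c5 := mul_nonneg (le_of_lt hs3) k1
    have c6 := mul_nonneg (le_of_lt hs3) k2
    have c7 := mul_nonneg (le_of_lt hs3) k3
    have c8 := mul_nonneg (le_of_lt hs3) k4
    refine le_of_mul_le_mul_left ?_ hs3
    clear h0 h1 hA hO hdd hU ha hb hP hL hW hnot hUc hRc hs k1 k2 k3 k4
    linarith [c1, hM, c2, c3, c4, hq, c5, c6, c7, c8]

end

end Run7.h678.CU
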