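import Pool.Agent.Run7.h678.Sat.Glob
import Pool.Agent.Run7.h678.CU.Core

set_option autoImplicit false
set_option linter.unusedSectionVars false
set_option linter.unusedVariables false

/-!
Two blocks without defects: the vertices with exactly four members of `T` between the blocks have
three colours, and two vertices joined by exactly one member of `T` to each block have different
colours.
-/

namespace Run7.h678.CU

open Finset Run7.h678.Sat

variable {V : Type*} [DecidableEq V]

theorem uniq3 (F : Fin 3 → Prop) [DecidablePred F] (h : ∑ i : Fin 3, (if F i then 1 else 0) = 1) :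
    ∃ i0 : Fin 3, ∀ i, F i → i = i0 := by
  simp only [Fin.sum_univ_three] at h
  by_cases h0 : F 0 <;> by_cases h1 : F 1 <;> by_cases h2 : F 2 <;> simp [h0, h1, h2] at h
  · refine ⟨0, fun i hi => ?_⟩
    fin_cases i
    · rfl
    · exact absurd hi h1
    · exact absurd hi h2
  · refine ⟨1, fun i hi => ?_⟩
    fin_cases i
    · exact absurd hi h0
    · rfl
    · exact absurd hi h2
  · refine ⟨2, fun i hi => ?_⟩
    fin_cases i
    · exact absurd hi h0
    · exact absurd hi h1
    · rfl

theorem exists_colour {T : Finset (Finset V)} (hT : Cov T) {B C : Finset V} (hB : B.card = 3)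
    (hC : C.card = 3) (hBC : Disjoint B C) (g1 : ∀ x ∈ C, Good T B x)
    (g2 : ∀ a ∈ B, Good T C a) :
    ∃ κ : V → Fin 3, ∀ y z : V, y ∉ B → y ∉ C → z ∉ B → z ∉ C → y ≠ z →
      Good T B y → Good T C y → Good T B z → Good T C z →
      ∑ a ∈ B, ∑ c ∈ C, g T a c y = 4 → ∑ a ∈ B, ∑ c ∈ C, g T a c z = 4 →
      ∑ a ∈ B, g T a y z = 1 → ∑ c ∈ C, g T c y z = 1 → κ y ≠ κ z := by
  obtain ⟨b, hb, rfl⟩ := exists_enum hB
  obtain ⟨x, hx, rfl⟩ := exists_enum hC
  have hmb : ∀ i, b i ∈ univ.image b := fun i => mem_image_of_mem _ (mem_univ _)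
  have hmx : ∀ i, x i ∈ univ.image x := fun i => mem_image_of_mem _ (mem_univ _)
  have hbx : ∀ i j, b i ≠ x j := fun i j h => (disjoint_left.mp hBC) (hmb i) (h ▸ hmx j)
  have e1 : ∀ j : Fin 3, ∃ c : Fin 3, ∀ i i' : Fin 3, i ≠ i' →
      (({b i, b i', x j} : Finset V) ∈ T ↔ c ≠ i ∧ c ≠ i') := fun j =>
    apex hT hb (fun h => (disjoint_left.mp hBC) h (hmx j)) (g1 _ (hmx j))
  have e2 : ∀ i : Fin 3, ∃ c : Fin 3, ∀ j j' : Fin 3, j ≠ j' →
      (({x j, x j', b i} : Finset V) ∈ T ↔ c ≠ j ∧ c ≠ j') := fun i =>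
    apex hT hx (fun h => (disjoint_left.mp hBC) (hmb i) h) (g2 _ (hmb i))
  choose c hc using e1
  choose d hd using e2
  have e3 : ∀ y : V, ∃ p : Fin 3, y ∉ univ.image b → Good T (univ.image b) y →
      ∀ i j : Fin 3, i ≠ j → (({b i, b j, y} : Finset V) ∈ T ↔ p ≠ i ∧ p ≠ j) := by
    intro y
    by_cases h : y ∉ univ.image b ∧ Good T (univ.image b) y
    · obtain ⟨p, hp⟩ := apex hT hb h.1 h.2
      exact ⟨p, fun _ _ => hp⟩
    · exact ⟨0, fun h1 h2 => absurd ⟨h1, h2⟩ h⟩
  have e4 : ∀ y : V, ∃ p : Fin 3, y ∉ univ.image x → Good T (univ.image x) y →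
      ∀ i j : Fin 3, i ≠ j → (({x i, x j, y} : Finset V) ∈ T ↔ p ≠ i ∧ p ≠ j) := by
    intro y
    by_cases h : y ∉ univ.image x ∧ Good T (univ.image x) y
    · obtain ⟨p, hp⟩ := apex hT hx h.1 h.2
      exact ⟨p, fun _ _ => hp⟩
    · exact ⟨0, fun h1 h2 => absurd ⟨h1, h2⟩ h⟩
  choose pf hpf using e3
  choose qf hqf using e4
  have hno : NoClosed c d := by
    intro i j k l hij hkl ⟨h1, h2, h3, h4⟩
    have m1 : ({b i, b j, x k} : Finset V) ∉ T := by rw [hc k i j hij]; exact not_both h1
    have m2 : ({b i, b j, x l} : Finset V) ∉ T := by rw [hc l i j hij]; exact not_both h2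
    have m3 : ({x k, x l, b i} : Finset V) ∉ T := by rw [hd i k l hkl]; exact not_both h3
    have m4 : ({x k, x l, b j} : Finset V) ∉ T := by rw [hd j k l hkl]; exact not_both h4
    rcases cov4 hT (hb.ne hij) (hbx i k) (hbx i l) (hbx j k) (hbx j l) (hx.ne hkl) with
      h | h | h | h
    · exact m1 h
    · exact m2 h
    · exact m3 h
    · exact m4 h
  have t1 : ∀ y : V, y ∉ univ.image b → y ∉ univ.image x → Good T (univ.image b) y →
      ∀ i j k : Fin 3, Both c (pf y) i j k →
      decide (({b i, x k, y} : Finset V) ∈ T) = true ∨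
        decide (({b j, x k, y} : Finset V) ∈ T) = true := by
    intro y hyb hyx hg i j k ⟨hij, h1, h2⟩
    simp only [decide_eq_true_eq]
    have hby : ∀ i, b i ≠ y := fun i h => hyb (h ▸ hmb i)
    have hxy : ∀ i, x i ≠ y := fun i h => hyx (h ▸ hmx i)
    have m1 : ({b i, b j, x k} : Finset V) ∉ T := by rw [hc k i j hij]; exact not_both h2
    have m2 : ({b i, b j, y} : Finset V) ∉ T := by
      rw [hpf y hyb hg i j hij]; exact not_both h1
    rcases cov4 hT (hb.ne hij) (hbx i k) (hby i) (hbx j k) (hby j) (hxy k) with h | h | h | h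
    · exact absurd h m1
    · exact absurd h m2
    · left; rw [rot3]; exact h
    · right; rw [rot3]; exact h
  have t2 : ∀ y : V, y ∉ univ.image b → y ∉ univ.image x → Good T (univ.image x) y →
      ∀ k l i : Fin 3, Both d (qf y) k l i →
      decide (({b i, x k, y} : Finset V) ∈ T) = true ∨
        decide (({b i, x l, y} : Finset V) ∈ T) = true := by
    intro y hyb hyx hg k l i ⟨hkl, h1, h2⟩
    simp only [decide_eq_true_eq]
    have hby : ∀ i, b i ≠ y := fun i h => hyb (h ▸ hmb i)
    have hxy : ∀ i, x i ≠ y := fun i h => hyx (h ▸ hmx i)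
    have m1 : ({x k, x l, b i} : Finset V) ∉ T := by rw [hd i k l hkl]; exact not_both h2
    have m2 : ({x k, x l, y} : Finset V) ∉ T := by
      rw [hqf y hyx hg k l hkl]; exact not_both h1
    rcases cov4 hT (hx.ne hkl) (hbx i k).symm (hxy k) (hbx i l).symm (hxy l) (hby i) with
      h | h | h | h
    · exact absurd h m1
    · exact absurd h m2
    · left; rw [Finset.pair_comm]; exact h
    · right; rw [Finset.pair_comm]; exact h
  have t3 : ∀ y : V, ∑ a ∈ univ.image b, ∑ c ∈ univ.image x, g T a c y = 4 →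
      ∑ i : Fin 3, ∑ j : Fin 3, (decide (({b i, x j, y} : Finset V) ∈ T)).toNat = 4 := by
    intro y h
    rw [← h, sum_enum hb]
    refine sum_congr rfl fun i _ => ?_
    rw [sum_enum hx]
    refine sum_congr rfl fun j _ => ?_
    unfold g
    by_cases h : ({b i, x j, y} : Finset V) ∈ T <;> simp [h]
  refine ⟨fun y => col c d (pf y) (qf y), ?_⟩
  intro y z hyB hyC hzB hzC hyz gyB gyC gzB gzC sy sz s1 s2
  have hby : ∀ i, b i ≠ y := fun i h => hyB (h ▸ hmb i)
  have hxy : ∀ i, x i ≠ y := fun i h => hyC (h ▸ hmx i)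
  have hbz : ∀ i, b i ≠ z := fun i h => hzB (h ▸ hmb i)
  have hxz : ∀ i, x i ≠ z := fun i h => hzC (h ▸ hmx i)
  obtain ⟨b0, hb0⟩ := uniq3 (fun i => ({b i, y, z} : Finset V) ∈ T) (by
    rw [sum_enum hb] at s1
    exact s1)
  obtain ⟨x0, hx0⟩ := uniq3 (fun i => ({x i, y, z} : Finset V) ∈ T) (by
    rw [sum_enum hx] at s2
    exact s2)
  refine col_ne c d hno (pf y) (qf y) (pf z) (qf z) b0 x0
    (fun i j => decide (({b i, x j, y} : Finset V) ∈ T))
    (fun i j => decide (({b i, x j, z} : Finset V) ∈ T))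
    (t1 y hyB hyC gyB) (t2 y hyB hyC gyC) (t1 z hzB hzC gzB) (t2 z hzB hzC gzC)
    (t3 y sy) (t3 z sz) ?_ ?_ ?_
  · intro i j hij h1 h2
    have m1 : ({b i, b j, y} : Finset V) ∉ T := by
      rw [hpf y hyB gyB i j hij]; exact not_both h1
    have m2 : ({b i, b j, z} : Finset V) ∉ T := by
      rw [hpf z hzB gzB i j hij]; exact not_both h2
    rcases cov4 hT (hb.ne hij) (hby i) (hbz i) (hby j) (hbz j) hyz with h | h | h | h
    · exact absurd h m1
    · exact absurd h m2
    · left; exact (hb0 i (by rw [rot3]; exact h)).symm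
    · right; exact (hb0 j (by rw [rot3]; exact h)).symm
  · intro i j hij h1 h2
    have m1 : ({x i, x j, y} : Finset V) ∉ T := by
      rw [hqf y hyC gyC i j hij]; exact not_both h1
    have m2 : ({x i, x j, z} : Finset V) ∉ T := by
      rw [hqf z hzC gzC i j hij]; exact not_both h2
    rcases cov4 hT (hx.ne hij) (hxy i) (hxz i) (hxy j) (hxz j) hyz with h | h | h | h
    · exact absurd h m1
    · exact absurd h m2
    · left; exact (hx0 i (by rw [rot3]; exact h)).symm
    · right; exact (hx0 j (by rw [rot3]; exact h)).symm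
  · intro i k
    simp only [decide_eq_true_eq]
    rcases cov4 hT (hbx i k) (hby i) (hbz i) (hxy k) (hxz k) hyz with h | h | h | h
    · left; exact h
    · right; left; exact h
    · right; right; left; exact hb0 i (by rw [rot3]; exact h)
    · right; right; right; exact hx0 k (by rw [rot3]; exact h)

end Run7.h678.CU
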